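import Mathlib

/-! The eight similitudes of norm `49` of the ternary lattice: finite checks. -/

namespace Pool.Agent.MP_5f72fe_nt.H97

variable {R : Type} [CommRing R]

/-- the form in the basis of the lattice -/
def qf (u : R × R × R) : R := 3 * u.1 ^ 2 + 4 * u.2.1 ^ 2 + 4 * u.2.1 * u.2.2 + 4 * u.2.2 ^ 2

/-- the similitudes -/
def Mk (k : Fin 8) (u : R × R × R) : R × R × R :=
  match k with
  | 0 => (7 * u.1, -5 * u.2.1 + 3 * u.2.2, -3 * u.2.1 - 8 * u.2.2)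
  | 1 => (7 * u.1, -8 * u.2.1 - 3 * u.2.2, 3 * u.2.1 - 5 * u.2.2)
  | 2 => (u.1 - 4 * u.2.1 - 8 * u.2.2, 7 * u.2.1, 6 * u.1 - 3 * u.2.1 + u.2.2)
  | 3 => (u.1 + 8 * u.2.1 + 4 * u.2.2, -6 * u.1 + u.2.1 - 3 * u.2.2, 7 * u.2.2)
  | 4 => (u.1 - 4 * u.2.1 + 4 * u.2.2, 6 * u.1 + 4 * u.2.1 + 3 * u.2.2,
      -6 * u.1 + 3 * u.2.1 + 4 * u.2.2)
  | 5 => (u.1 + 4 * u.2.1 + 8 * u.2.2, 7 * u.2.1, -6 * u.1 - 3 * u.2.1 + u.2.2)
  | 6 => (u.1 - 8 * u.2.1 - 4 * u.2.2, 6 * u.1 + u.2.1 - 3 * u.2.2, 7 * u.2.2)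
  | 7 => (u.1 + 4 * u.2.1 - 4 * u.2.2, -6 * u.1 + 4 * u.2.1 + 3 * u.2.2,
      6 * u.1 + 3 * u.2.1 + 4 * u.2.2)

/-- the number of similitudes that kill a vector -/
def cnt [DecidableEq R] (u : R × R × R) : ℕ := (Finset.univ.filter fun k => Mk k u = 0).card

/-- the count modulo `7` -/
def ch (x : ZMod 7) : ℕ := if x = 0 then 1 else if x = 3 ∨ x = 5 ∨ x = 6 then 2 else 0

theorem key7 : ∀ a b c : ZMod 7, (a, b, c) ≠ 0 → cnt (a, b, c) = ch (qf (a, b, c)) := by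
  decide +kernel

/-- the index of the adjoint -/
def ad (k : Fin 8) : Fin 8 := ![1, 0, 5, 6, 7, 2, 3, 4] k

/-- the bilinear form -/
def bf (u v : R × R × R) : R :=
  6 * u.1 * v.1 + 8 * u.2.1 * v.2.1 + 4 * (u.2.1 * v.2.2 + u.2.2 * v.2.1) + 8 * u.2.2 * v.2.2

theorem line7 : ∀ (k : Fin 8) (a b c : ZMod 7), Mk (ad k) (a, b, c) = 0 → qf (a, b, c) = 0 →
    (a, b, c) ≠ 0 → (∃ x y : ZMod 7, Mk k (x, y, 0) = (a, b, c)) ∧
      ∀ x y z : ZMod 7, bf (a, b, c) (x, y, z) = 0 → Mk (ad k) (x, y, z) = 0 := by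
  decide +kernel

theorem ad_ad : ∀ k, ad (ad k) = k := by decide

theorem Mk_ad (k : Fin 8) (u : R × R × R) :
    Mk (ad k) (Mk k u) = (49 * u.1, 49 * u.2.1, 49 * u.2.2) := by
  fin_cases k <;> simp only [ad, Mk, Fin.reduceFinMk, Matrix.cons_val, Fin.zero_eta, Fin.mk_one,
    Prod.mk.injEq] <;> refine ⟨?_, ?_, ?_⟩ <;> ring

theorem qf_Mk (k : Fin 8) (u : R × R × R) : qf (Mk k u) = 49 * qf u := by
  fin_cases k <;> simp only [qf, Mk] <;> ring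

theorem Mk_lin (k : Fin 8) (s t : R) (u v : R × R × R) :
    Mk k (s • u + t • v) = s • Mk k u + t • Mk k v := by
  fin_cases k <;> simp only [Mk, Prod.smul_mk, Prod.mk_add_mk, Prod.fst_add, Prod.snd_add,
    Prod.smul_fst, Prod.smul_snd, smul_eq_mul, Prod.mk.injEq] <;> refine ⟨?_, ?_, ?_⟩ <;> ring

theorem bf_Mk (k : Fin 8) (u v : R × R × R) : bf (Mk k u) v = bf u (Mk (ad k) v) := by
  fin_cases k <;> simp only [ad, bf, Mk, Fin.reduceFinMk, Matrix.cons_val, Fin.zero_eta,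
    Fin.mk_one] <;> ring

theorem three_dvd (k : Fin 8) (u : ℤ × ℤ × ℤ) : 3 ∣ (Mk k u).2.1 - u.2.1 := by
  fin_cases k <;> simp only [Mk] <;> omega

/-- reduction modulo `7` -/
def rd (u : ℤ × ℤ × ℤ) : ZMod 7 × ZMod 7 × ZMod 7 := (u.1, u.2.1, u.2.2)

theorem rd_Mk (k : Fin 8) (u : ℤ × ℤ × ℤ) : rd (Mk k u) = Mk k (rd u) := by
  fin_cases k <;> simp only [Mk, rd] <;> push_cast <;> rfl

theorem rd_qf (u : ℤ × ℤ × ℤ) : qf (rd u) = ((qf u : ℤ) : ZMod 7) := by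
  simp only [qf, rd]
  push_cast
  rfl

theorem rd_bf (u v : ℤ × ℤ × ℤ) : bf (rd u) (rd v) = ((bf u v : ℤ) : ZMod 7) := by
  simp only [bf, rd]
  push_cast
  rfl

theorem rd_eq {u v : ℤ × ℤ × ℤ} : rd u = rd v ↔ ∃ x, u = v + (7 : ℤ) • x := by
  obtain ⟨a, b, c⟩ := u
  obtain ⟨a', b', c'⟩ := v
  simp only [rd, Prod.mk.injEq, ZMod.intCast_eq_intCast_iff', Prod.exists, Prod.smul_mk,
    Prod.mk_add_mk, smul_eq_mul, Nat.cast_ofNat]
  constructor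
  · rintro ⟨h1, h2, h3⟩
    exact ⟨(a - a') / 7, (b - b') / 7, (c - c') / 7, by omega, by omega, by omega⟩
  · rintro ⟨x, y, z, h1, h2, h3⟩
    exact ⟨by omega, by omega, by omega⟩

theorem rd_zero {u : ℤ × ℤ × ℤ} : rd u = 0 ↔ ∃ x, u = (7 : ℤ) • x := by
  have h := rd_eq (u := u) (v := 0)
  simp only [zero_add] at h
  rw [← h]
  rfl

theorem Mk_smul (k : Fin 8) (s : R) (u : R × R × R) : Mk k (s • u) = s • Mk k u := by
  simpa using Mk_lin k s 0 u u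

theorem Mk_ad' (k : Fin 8) (u : ℤ × ℤ × ℤ) : Mk (ad k) (Mk k u) = (49 : ℤ) • u := Mk_ad k u

theorem smul_inj {s : ℤ} (hs : s ≠ 0) {u v : ℤ × ℤ × ℤ} (h : s • u = s • v) : u = v :=
  smul_right_injective _ hs h

theorem qf_smul (s : R) (u : R × R × R) : qf (s • u) = s ^ 2 * qf u := by
  simp only [qf, Prod.smul_fst, Prod.smul_snd, smul_eq_mul]
  ring

/-- the lift from `7` to `49` -/
theorem lift49 (k : Fin 8) {w : ℤ × ℤ × ℤ} (hq : 49 ∣ qf w) (h0 : rd w ≠ 0)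
    (h : Mk k (rd w) = 0) : ∃ x, Mk k w = (49 : ℤ) • x := by
  rw [← rd_Mk, rd_zero] at h
  obtain ⟨z, hz⟩ := h
  suffices hs : rd z = 0 by
    obtain ⟨x, rfl⟩ := rd_zero.1 hs
    exact ⟨x, by rw [hz, smul_smul]; norm_num⟩
  by_contra hz0
  have h1 : Mk (ad k) z = (7 : ℤ) • w := by
    apply smul_inj (s := 7) (by norm_num)
    rw [← Mk_smul, ← hz, Mk_ad', smul_smul]
    norm_num
  have h2 : qf z = qf w := by
    have := qf_Mk k w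
    rw [hz, qf_smul] at this
    linarith
  obtain ⟨⟨x, y, h3⟩, h4⟩ := line7 k (rd z).1 (rd z).2.1 (rd z).2.2
    ((rd_Mk _ z).symm.trans (rd_zero.2 ⟨w, h1⟩))
    ((rd_qf z).trans ((ZMod.intCast_zmod_eq_zero_iff_dvd _ 7).2
      (by rw [h2]; exact Dvd.dvd.trans (by norm_num) hq))) hz0
  obtain ⟨x, rfl⟩ := ZMod.intCast_surjective x
  obtain ⟨y, rfl⟩ := ZMod.intCast_surjective y
  have h5 : rd z = rd (Mk k (x, y, 0)) := by
    rw [rd_Mk]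
    simpa [rd] using h3.symm
  obtain ⟨v, hv⟩ := rd_eq.1 h5
  generalize ((x, y, 0) : ℤ × ℤ × ℤ) = e at hv
  have h6 : qf z = 49 * qf e + 7 * bf z v - 49 * qf v := by
    rw [← qf_Mk k e]
    have : Mk k e = z - (7 : ℤ) • v := by rw [hv]; simp
    rw [this]
    simp only [qf, bf, Prod.fst_sub, Prod.snd_sub, Prod.smul_fst, Prod.smul_snd, smul_eq_mul]
    ring
  have h7 := h4 (rd v).1 (rd v).2.1 (rd v).2.2
    ((rd_bf z v).trans ((ZMod.intCast_zmod_eq_zero_iff_dvd _ 7).2 (by omega)))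
  obtain ⟨t, ht⟩ := rd_zero.1 ((rd_Mk _ v).trans h7)
  refine h0 (rd_zero.2 ⟨e + t, ?_⟩)
  apply smul_inj (s := 7) (by norm_num)
  have h8 := Mk_lin (ad k) 1 7 (Mk k e) v
  rw [one_smul, one_smul, ← hv, h1, Mk_ad', ht] at h8
  rw [h8, smul_add, smul_add, smul_smul 7 7 e]
  norm_num

end Pool.Agent.MP_5f72fe_nt.H97
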