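import Pool.Agent.MP_5f72fe_nt.H3.SpecC
import Pool.Agent.MP_5f72fe_nt.H97.EI7a

/-! The commutation relation at `7`. -/

namespace Pool.Agent.MP_5f72fe_nt.H97

open Pool.Agent.MP_5f72fe_nt.H3 Finset

/-- from the basis of the lattice to the coordinates `(a, y, b)` -/
def em (u : V) : V := (u.1, u.2.1 + 2 * u.2.2, u.2.1)

/-- the inverse -/
def un (v : V) : V := (v.1, v.2.2, (v.2.1 - v.2.2) / 2)

/-- the vectors in the basis of the lattice -/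
noncomputable def R0 (N : ℕ) : Finset V := (Rp0 N).image un

theorem mem_Rp0 {N : ℕ} {v : V} : v ∈ Rp0 N ↔
    (v.2.1 ^ 2 + 3 * v.1 ^ 2 + 3 * v.2.2 ^ 2 = N ∧ v.2.1 % 2 = v.2.2 % 2) ∧ 3 ∣ v.2.2 := by
  simp only [Rp0, Rp, mem_filter, mem_product, mem_Icc]
  refine ⟨fun h => ⟨h.1.2, h.2⟩, fun h => ⟨⟨?_, h.1⟩, h.2⟩⟩
  have key : ∀ x : ℤ, x ^ 2 ≤ N → -(N : ℤ) ≤ x ∧ x ≤ N := fun x hx =>
    ⟨by nlinarith [sq_nonneg (x + 1), sq_nonneg x], by nlinarith [sq_nonneg (x - 1), sq_nonneg x]⟩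
  have h1 := h.1.1
  exact ⟨key _ (by nlinarith), key _ (by nlinarith), key _ (by nlinarith)⟩

theorem em_un {N : ℕ} {v : V} (h : v ∈ Rp0 N) : em (un v) = v := by
  obtain ⟨a, y, b⟩ := v
  have h1 := (mem_Rp0.1 h).1.2
  simp only [em, un, Prod.mk.injEq, true_and, and_true] at h1 ⊢
  omega

theorem mem_R0 {N : ℕ} {u : V} : u ∈ R0 N ↔ qf u = N ∧ 3 ∣ u.2.1 := by
  have h1 : em u ∈ Rp0 N ↔ qf u = N ∧ 3 ∣ u.2.1 := by
    have e : (u.2.1 + 2 * u.2.2) ^ 2 + 3 * u.1 ^ 2 + 3 * u.2.1 ^ 2 = qf u := by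
      simp only [qf]
      ring
    simp only [mem_Rp0, em, e]
    exact ⟨fun h => ⟨h.1.1, h.2⟩, fun h => ⟨⟨h.1, by omega⟩, h.2⟩⟩
  have h2 : ∀ u, un (em u) = u := by
    rintro ⟨a, b, c⟩
    simp only [em, un, Prod.mk.injEq, true_and]
    omega
  rw [← h1, R0, mem_image]
  constructor
  · rintro ⟨v, hv, rfl⟩
    rwa [em_un hv]
  · exact fun h => ⟨_, h, h2 u⟩

theorem th_eq (φ : V → ZMod 3) (N : ℕ) : TH0 φ N = ∑ u ∈ R0 N, φ (em u) := by
  rw [R0, sum_image fun v hv w hw h => by rw [← em_un hv, h, em_un hw]]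
  exact sum_congr rfl fun v hv => by rw [em_un hv]

theorem t7_eq {φ : V → ZMod 3} (h : InC φ) (u : V) :
    T7 φ (em u) = ∑ k, φ (em (Mk k u)) := by
  have h1 : ∀ v, φ (sg' v) = φ v := by
    intro v
    rw [← h.rot, ← h.hom 4 v (by norm_num)]
    congr 1
    simp only [sg, sg']
    refine Prod.ext ?_ (Prod.ext ?_ ?_) <;> simp <;> ring
  have e0 : sg (em (Mk 0 u)) = (-2 : ℤ) • p7 1 (em u) := by
    simp only [sg, em, Mk, p7]
    refine Prod.ext ?_ (Prod.ext ?_ ?_) <;> simp <;> ring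
  have e1 : sg' (em (Mk 1 u)) = (-2 : ℤ) • p7 (-1) (em u) := by
    simp only [sg', em, Mk, p7]
    refine Prod.ext ?_ (Prod.ext ?_ ?_) <;> simp <;> ring
  have e2 : em (Mk 2 u) = q7 1 (em u) := by
    simp only [em, Mk, q7]
    refine Prod.ext ?_ (Prod.ext ?_ ?_) <;> simp <;> ring
  have e3 : sg (em (Mk 3 u)) = q7 1 (sg (em u)) := by
    simp only [sg, em, Mk, q7]
    refine Prod.ext ?_ (Prod.ext ?_ ?_) <;> simp <;> ring
  have e4 : sg' (em (Mk 4 u)) = q7 1 (sg' (em u)) := by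
    simp only [sg', em, Mk, q7]
    refine Prod.ext ?_ (Prod.ext ?_ ?_) <;> simp <;> ring
  have e5 : em (Mk 5 u) = q7 (-1) (em u) := by
    simp only [em, Mk, q7]
    refine Prod.ext ?_ (Prod.ext ?_ ?_) <;> simp <;> ring
  have e6 : sg (em (Mk 6 u)) = q7 (-1) (sg (em u)) := by
    simp only [sg, em, Mk, q7]
    refine Prod.ext ?_ (Prod.ext ?_ ?_) <;> simp <;> ring
  have e7 : sg' (em (Mk 7 u)) = q7 (-1) (sg' (em u)) := by
    simp only [sg', em, Mk, q7]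
    refine Prod.ext ?_ (Prod.ext ?_ ?_) <;> simp <;> ring
  rw [Fin.sum_univ_eight, ← h.rot (em (Mk 0 u)), ← h1 (em (Mk 1 u)), ← h.rot (em (Mk 3 u)),
    ← h1 (em (Mk 4 u)), ← h.rot (em (Mk 6 u)), ← h1 (em (Mk 7 u)), e0, e1, e2, e3, e4, e5, e6, e7,
    h.hom _ _ (by norm_num), h.hom _ _ (by norm_num), T7]
  ring

open Classical in
theorem sum_Mk (ψ : V → ZMod 3) (N : ℕ) (k : Fin 8) : ∑ u ∈ R0 N, ψ (Mk k u) =
    ∑ w ∈ R0 (49 * N), if ∃ x, Mk (ad k) w = (49 : ℤ) • x then ψ w else 0 := by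
  rw [← sum_filter]
  refine sum_bij (fun u _ => Mk k u) (fun u hu => ?_) (fun u _ v _ h => ?_) (fun w hw => ?_)
    fun _ _ => rfl
  · obtain ⟨h1, h2⟩ := mem_R0.1 hu
    have h3 := three_dvd k u
    refine mem_filter.2 ⟨mem_R0.2 ⟨?_, by omega⟩, u, Mk_ad' k u⟩
    rw [qf_Mk, h1]
    push_cast
    rfl
  · apply smul_inj (s := 49) (by norm_num)
    rw [← Mk_ad' k, ← Mk_ad' k, h]
  · obtain ⟨h1, x, hx⟩ := mem_filter.1 hw
    obtain ⟨h2, h3⟩ := mem_R0.1 h1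
    have h4 : Mk k x = w := by
      apply smul_inj (s := 49) (by norm_num)
      have := Mk_ad' (ad k) w
      rwa [ad_ad, hx, Mk_smul] at this
    have h5 := qf_Mk k x
    have h6 := three_dvd k x
    rw [h4] at h5 h6
    push_cast at h2
    exact ⟨x, mem_R0.2 ⟨by omega, by omega⟩, h4⟩

theorem sum_seven (g : V → ZMod 3) (N : ℕ) :
    ∑ w ∈ R0 (49 * N), (if rd w = 0 then g w else 0) = ∑ u ∈ R0 N, g ((7 : ℤ) • u) := by
  rw [← sum_filter]
  symm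
  refine sum_bij (fun u _ => (7 : ℤ) • u) (fun u hu => ?_) (fun u _ v _ h => ?_) (fun w hw => ?_)
    fun _ _ => rfl
  · obtain ⟨h1, h2⟩ := mem_R0.1 hu
    refine mem_filter.2 ⟨mem_R0.2 ⟨?_, h2.mul_left 7⟩, rd_zero.2 ⟨u, rfl⟩⟩
    rw [qf_smul, h1]
    push_cast
    rfl
  · exact smul_inj (by norm_num) h
  · obtain ⟨h1, h2⟩ := mem_filter.1 hw
    obtain ⟨x, rfl⟩ := rd_zero.1 h2
    obtain ⟨h3, h4⟩ := mem_R0.1 h1
    rw [qf_smul] at h3
    push_cast at h3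
    have h5 : 3 ∣ 7 * x.2.1 := h4
    exact ⟨x, mem_R0.2 ⟨by omega, by omega⟩, rfl⟩

theorem sum_ad (f : Fin 8 → ZMod 3) : ∑ k, f (ad k) = ∑ k, f k :=
  Equiv.sum_comp (Function.Involutive.toPerm ad ad_ad) f

theorem sum_cnt (u : ZMod 7 × ZMod 7 × ZMod 7) (x : ZMod 3) :
    ∑ k, (if Mk k u = 0 then x else 0) = cnt u * x := by
  rw [← sum_filter, sum_const, cnt, nsmul_eq_mul]

theorem rowEI7 : RowEI7 := by
  classical
  intro φ n h hn _ hc m hm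
  let ψ : V → ZMod 3 := fun u => φ (em u)
  have hψ : ∀ u, ψ ((7 : ℤ) • u) = ψ u := by
    intro u
    have : em ((7 : ℤ) • u) = (7 : ℤ) • em u := by
      simp only [em]
      refine Prod.ext ?_ (Prod.ext ?_ ?_) <;> simp
      ring
    simp only [ψ, this, h.hom 7 _ (by norm_num)]
  have hc' : ∀ m : ℕ, 1 ≤ m → ∑ u ∈ R0 (n * m ^ 2), ψ u = 0 := fun m hm =>
    (th_eq φ _).symm.trans (hc m hm)
  have h1 : ∑ u ∈ R0 (49 * (n * m ^ 2)), ψ u = 0 := by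
    rw [show 49 * (n * m ^ 2) = n * (7 * m) ^ 2 by ring]
    exact hc' _ (by omega)
  have h2 : ∑ u ∈ R0 (n * m ^ 2), (if rd u = 0 then ψ u else 0) = 0 := by
    by_cases h7 : 7 ∣ m
    · obtain ⟨m', rfl⟩ := h7
      rw [show n * (7 * m') ^ 2 = 49 * (n * m' ^ 2) by ring, sum_seven]
      simp only [hψ]
      exact hc' _ (by omega)
    · refine sum_eq_zero fun u hu => if_neg fun h0 => ?_
      obtain ⟨x, rfl⟩ := rd_zero.1 h0
      have h3 := (mem_R0.1 hu).1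
      rw [qf_smul] at h3
      have h4 : 7 * 7 ∣ n * m ^ 2 := by
        have : ((7 * 7 : ℕ) : ℤ) ∣ ((n * m ^ 2 : ℕ) : ℤ) := ⟨qf x, by rw [← h3]; norm_num⟩
        exact_mod_cast this
      have h5 : Nat.Coprime (7 * 7) (m ^ 2) := by
        rw [← sq]
        exact Nat.Coprime.pow _ _ ((Nat.Prime.coprime_iff_not_dvd (by norm_num)).2 h7)
      exact absurd (hn 7 (h5.dvd_of_dvd_mul_right h4)) (by norm_num)
  set N := n * m ^ 2 with hN
  have h3 : ∀ w ∈ R0 (49 * N),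
      ∑ k, (if ∃ x, Mk (ad k) w = (49 : ℤ) • x then ψ w else 0) = ψ w + if rd w = 0 then
        (∑ k, if ∃ x, Mk k w = (49 : ℤ) • x then ψ w else 0) - ψ w else 0 := by
    intro w hw
    rw [sum_ad fun k => if ∃ x, Mk k w = (49 : ℤ) • x then ψ w else 0]
    by_cases h0 : rd w = 0
    · rw [if_pos h0, add_sub_cancel]
    · have hq : 49 ∣ qf w := ⟨N, by rw [(mem_R0.1 hw).1]; push_cast; rfl⟩
      have h4 : ∀ k, (∃ x, Mk k w = (49 : ℤ) • x) ↔ Mk k (rd w) = 0 := fun k =>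
        ⟨fun ⟨x, hx⟩ => (rd_Mk k w).symm.trans (rd_zero.2 ⟨(7 : ℤ) • x, by
          rw [hx, smul_smul]; norm_num⟩), lift49 k hq h0⟩
      have h5 : qf (rd w) = 0 := (rd_qf w).trans
        ((ZMod.intCast_zmod_eq_zero_iff_dvd _ 7).2 (Dvd.dvd.trans (by norm_num) hq))
      have h6 : cnt (rd w) = ch (qf (rd w)) := key7 _ _ _ h0
      simp only [h4]
      rw [if_neg h0, sum_cnt, h6, h5]
      simp [ch]
  have h4 : ∀ u ∈ R0 N,
      (∑ k, if ∃ x, Mk k ((7 : ℤ) • u) = (49 : ℤ) • x then ψ ((7 : ℤ) • u) else 0) -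
        ψ ((7 : ℤ) • u) = (ch N - 1) * ψ u +
          ((cnt (0 : ZMod 7 × ZMod 7 × ZMod 7) : ZMod 3) - ch N) * if rd u = 0 then ψ u else 0 := by
    intro u hu
    have h5 : ∀ k, (∃ x, Mk k ((7 : ℤ) • u) = (49 : ℤ) • x) ↔ Mk k (rd u) = 0 := by
      intro k
      rw [← rd_Mk, rd_zero, Mk_smul]
      refine exists_congr fun x => ⟨fun hx => smul_inj (s := 7) (by norm_num) ?_, fun hx => ?_⟩
      · rw [hx, smul_smul]
        norm_num
      · rw [hx, smul_smul]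
        norm_num
    simp only [h5, hψ]
    rw [sum_cnt]
    by_cases h0 : rd u = 0
    · rw [if_pos h0, h0]
      ring
    · have h6 : cnt (rd u) = ch (qf (rd u)) := key7 _ _ _ h0
      rw [if_neg h0, h6, rd_qf, (mem_R0.1 hu).1, Int.cast_natCast]
      ring
  rw [th_eq]
  simp only [t7_eq h]
  rw [sum_comm]
  change ∑ k, ∑ u ∈ R0 N, ψ (Mk k u) = 0
  simp only [sum_Mk]
  rw [sum_comm, sum_congr rfl h3, sum_add_distrib, h1, sum_seven, sum_congr rfl h4,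
    sum_add_distrib, ← mul_sum, ← mul_sum, h2, hc' m hm]
  simp

end Pool.Agent.MP_5f72fe_nt.H97
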